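import Pool.Agent.Y191.LcRam
import Pool.Agent.Q298.JS.TowB

/-!
# Termination for klt pairs fibred in moving log canonical arrangements relative to a base

Let `(X, Δ)` be a projective pair, `Δ` a `ℚ`-divisor, let `X ⇢ Z` be a dominant rational map to a
projective manifold `Z` of general type of dimension `b`, otherwise arbitrary (for instance a point),
and let `|V_1|, ..., |V_t|` be linear systems on `X` without fixed components. Let `Y_j` be the image
of the rational map of `X` to the product of `Z` and of the first `j` projective spaces, a variety of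
the dimension `b + d_1 + ... + d_j` with `d_j ≥ 1`; so `Y_0 = Z`. Let `V_j` be of dimension
`n_j = d_j + k_j`. Suppose:

* (position) for each `j`, the images of the general fibres of `X ⇢ Y_{j-1}` (of the Stein
  factorization) in the projective space of `V_j` are nondegenerate;
* (the members) `V_j` is spanned by finitely many members `D_i` of `|V_j|`, in arbitrary position, and
  `V_j` is not the direct sum of two nonzero subspaces such that each `D_i` belongs to one of them; at
  every prime divisor `P` of `X` which is a component of some `D_i`, some `D_i'` has the multiplicity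
  at least `σ_j (1 - Δ_j,P)`, where `2 σ_j > R_j (k_j + 1) (k_j + 2)` with `R_j = n_j + 2`, or
  `R_j = n_j + 1` if there are at least `n_j + 3` different members, and the `Δ_j` are effective with
  `∑ Δ_j ≤ Δ` (so `Δ_j = 0` if `Δ = 0`);
* (the fibres) let `Y = Y_t`. There is a correspondence between `X` and a relative product of
  projective spaces:
  a variety `X'` with a generically finite map `X' ⇢ X` (any finite extension `K'` of the function
  field `K`, ramified anywhere) and a generically finite map over `Y` of `X'` to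
  `Y' × P^{r_1} × ... × P^{r_c}`, `r_j ≥ 1`, `Y'` finite over `Y`, and in each `P^{r_j}` there are
  any hyperplanes `A j i = 0` which move with the point of `Y'`, with weights `w j i` in `[0, 1]`
  such that the arrangement is log canonical: the sum of the weights of hyperplanes with a common
  point is at most the codimension of their intersection. If `Q` is a place of `K'` over a prime
  divisor `P` of `X` which dominates `Y`, with ramification index `ε`, and `e j i` are the
  multiplicities of the hyperplanes at `Q`, not all zero, then `ε (1 - Δ_P)` is at most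
  `∑ (mx_j - ∑ w j i e j i)`, where `mx_j` is the greatest sum of `r_j + 1` of the `e j i` whose
  hyperplanes have no common point (`ε (1 - Δ_P) ≤ 1`, if all `e j i` are zero); and if `Q` is a place
  of `K'` over a prime divisor of `P^{r_1} × ... × P^{r_c}` over `Y`, with ramification index `ρ`, and
  with ramification index `ε` over the place `P` of `K`, then `ρ - ε α ≤ ∑ w j i e j i`, where `α` is
  the log discrepancy of `(X, Δ)` along `P` (it is `1 - Δ_P` if `P` is a prime divisor of `X`).

Then `κ(K_X + Δ) = ν(K_X + Δ)`: `K_X + Δ` is pseudo-effective if and only if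
`∑ i, w j i ≥ r_j + 1` for all `j`; then both dimensions are equal to `dim Y` plus the sum of the
`r_j` with `∑ i, w j i > r_j + 1`; otherwise they are `-∞`.

If `(X, Δ)` is klt and `κ(K_X + Δ) = ν(K_X + Δ)` then Q1 has a positive answer for `(X, Δ)`: if both are
`-∞` then an MMP with scaling ends with a Mori fibre space (Birkar, Cascini, Hacon and McKernan), and
otherwise `(X, Δ)` has a good minimal model (Gongyo and Lehmann) and so any MMP with scaling of an
ample divisor terminates (Birkar, Hacon and Xu, Lai). Here `Δ` need not be big, and `X ⇢ Z` is any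
dominant rational map to a variety of general type.

In our `MP_5ff3c6_ag.SeveralSystemsArrangements` `Z` is a point. In our
`MP_66b48b_ag.TowersOfLinearSystems` (nonvanishing only, with a weaker condition on the
multiplicities) `κ(Z) ≥ 0`. There is no condition at the divisors of `X` which do not dominate `Y`,
except for the multiplicities of the linear systems.

The language and the definitions of `Pool.Agent.Y172` are used: `X` is given by the homogeneous
coordinates `y` of its generic point, with values in the function field `K` of `X`; the prime divisors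
of `X` are places `P` of `K`, `P.ord` is the order along `P`. A linear system is given by a finite
dimensional space `V` of rational functions: if `a` is the minimum of the orders at `P` of the members
of `V` then the multiplicity of `P` in the divisor of the system which is given by `f ∈ V` is
`P.ord f - a`. `kodairaDim` and `numericalDim` are the literal definitions of the Kodaira dimension
and of the numerical dimension of `K_X + Δ`, the latter with respect to any effective integral
divisor `A`. `acl ℂ S` is the field of the elements which are algebraic over `ℂ(S)`.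

Proof. The forms along the fibres of `X ⇢ Y` are those of `Pool.Agent.Y191.lc_low`. For `j = t, ..., 1`
the forms along the fibres of `X ⇢ Y_j` are multiplied with the generalised Wronskians of `V_j` with
respect to vector fields which are tangent to the fibres of `X ⇢ Y_{j-1}`; these do not vanish, as the
members are linearly independent over the algebraic closure of the function field of `Y_{j-1}`, and
the products are forms along the fibres of `X ⇢ Y_{j-1}` with the right orders at all prime divisors
of `X`, including the vertical ones (`Pool.Agent.Q298.JS.towerB`); at last they are multiplied with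
the forms of `Z` (`Pool.Agent.Q298.MX.pluri_stage`). The upper bound is `Pool.Agent.Y191.lc_ab`.
-/

set_option autoImplicit false

open FF Pool.Agent.W602.GT Pool.Agent.Y172 Pool.Agent.Y191

namespace Pool.Agent.Results.MP_c1e25c_ag.RelativeArrangements

section

variable {K : Type} [Field K] [Algebra ℂ K] {N : ℕ}

/-- `(X, Δ)` is a projective pair of dimension `n`: `X` is normal, with generic point `y`, and `Δ` is
an effective `ℚ`-divisor. -/
def IsPair (y : Fin (N + 1) → K) (n : ℕ) (Δ : Place ℂ K → ℚ) : Prop :=
  NormalModel y ∧ Algebra.trdeg ℂ K = n ∧ Effective y Δ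

/-- The function field of the image `Y_j` of `X` under the map to `Z`, with the function field `B`,
and the first `j` linear systems: the field which is generated by `B` and by the quotients of the
members of each of them. -/
noncomputable def ImageField (B : IntermediateField ℂ K) {t : ℕ} (V : Fin t → Submodule ℂ K) (j : ℕ) :
    IntermediateField ℂ K :=
  B ⊔ IntermediateField.adjoin ℂ
    {y : K | ∃ i : Fin t, (i : ℕ) < j ∧ ∃ f ∈ V i, ∃ g ∈ V i, y = f / g}

/-- `V` is the direct sum of two nonzero subspaces such that each `φ i` belongs to one of them. -/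
def Splits {q : ℕ} (V : Submodule ℂ K) (φ : Fin q → K) : Prop :=
  ∃ V1 V2 : Submodule ℂ K, V1 ≠ ⊥ ∧ V2 ≠ ⊥ ∧ Disjoint V1 V2 ∧ V1 ⊔ V2 = V ∧
    ∀ i, φ i ∈ V1 ∨ φ i ∈ V2

/-- There are `r` members `φ i` of which no two are proportional. -/
def Different (r : ℕ) {q : ℕ} (φ : Fin q → K) : Prop :=
  ∃ τ : Fin r → Fin q, ∀ i j, i ≠ j → ∀ t : ℂ, φ (τ i) ≠ t • φ (τ j)

/-- The condition on the multiplicities: if the prime divisor `P` of `X` is a component of one of the
divisors `D i` (the order of `φ i` at `P` is not the minimum `a` of the orders of the members of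
`V`), then some `D i` has multiplicity at least `σ (1 - Δ_P)` at `P`. -/
def Multiplicities (y : Fin (N + 1) → K) (Δ : Place ℂ K → ℚ) {q : ℕ} (V : Submodule ℂ K)
    (φ : Fin q → K) (σ : ℚ) : Prop :=
  ∀ P, IsPrimeDivisor y P → ∀ a : ℤ, (∀ f ∈ V, f = 0 ∨ a ≤ P.ord f) →
    (∃ f ∈ V, f ≠ 0 ∧ P.ord f = a) → (∃ i, P.ord (φ i) ≠ a) →
    ∃ i, σ * (1 - Δ P) ≤ ((P.ord (φ i) - a : ℤ) : ℚ)

/-- The hypotheses on the linear systems `V i` on the pair `(X, Δ)` with a rational map to `Z`, a
variety of dimension `b` with the function field `B`. The dimension of `Y_j` is the sum of `b` and of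
the `d i` with `i < j`, `V i` has the dimension `d i + k i` as a linear system and, by
`nondegenerate`, this remains true for the space which it spans over the algebraic closure of the
function field of `Y_i`, the image under the map to `Z` and the previous linear systems. -/
structure PowerfulSystems (y : Fin (N + 1) → K) (Δ : Place ℂ K → ℚ) (B : IntermediateField ℂ K)
    (b : ℕ) {t : ℕ} (d k : Fin t → ℕ) (V : Fin t → Submodule ℂ K) : Prop where
  pos : ∀ i, 1 ≤ d i
  dim : ∀ j ≤ t, Algebra.trdeg ℂ (ImageField B V j) =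
    (b + ∑ i ∈ Finset.univ.filter (fun i : Fin t => (i : ℕ) < j), d i : ℕ)
  rank : ∀ i, Module.finrank ℂ (V i) = d i + k i + 1
  nondegenerate : ∀ i : Fin t, Module.finrank (acl ℂ (ImageField B V i : Set K))
    (Submodule.span (acl ℂ (ImageField B V i : Set K)) (V i : Set K)) = d i + k i + 1
  members : ∃ Δ' : Fin t → Place ℂ K → ℚ,
    (∀ P, IsPrimeDivisor y P → (∀ i, 0 ≤ Δ' i P) ∧ ∑ i, Δ' i P ≤ Δ P) ∧
    ∀ i, ∃ (q : ℕ) (φ : Fin q → K) (R : ℕ) (σ : ℚ), (∀ j, φ j ≠ 0) ∧
      Submodule.span ℂ (Set.range φ) = V i ∧ ¬ Splits (V i) φ ∧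
      (R = d i + k i + 2 ∨ (Different (d i + k i + 3) φ ∧ R = d i + k i + 1)) ∧
      (R * ((k i + 1) * (k i + 2)) : ℚ) < 2 * σ ∧ Multiplicities y (Δ' i) (V i) φ σ

/-- `κ (Z) = b`, where `Z` has dimension `b` and the function field `B`: some positive multiple of the
canonical divisor of a smooth projective model of `Z` has sections (pluricanonical forms which are
regular at all divisorial places) with `b` algebraically independent ratios. -/
def GeneralType (B : IntermediateField ℂ K) (b : ℕ) : Prop :=
  ∃ m : ℕ, 0 < m ∧ ∃ η : Fin (b + 1) → (Fin b → Derivation ℂ B B) → B,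
    (∀ l, IsPluri m (η l) ∧ ∀ P : Place ℂ B, Divisorial b P →
      ∀ D : Fin b → Derivation ℂ B B, (∀ i, DerReg P (D i)) → P.Reg (η l D)) ∧
    ∃ D, η 0 D ≠ 0 ∧ AlgebraicIndependent ℂ (fun i : Fin b => η i.succ D / η 0 D)

/-- There is a finite extension `K'` of `K`, and the `u ⟨j, k⟩` are the affine coordinates of a
generically finite map, over the variety with the function field `L`, of a variety with the function
field `K'` to a product of projective spaces of dimensions `r j ≥ 1`; `A j i` are the coefficients of
hyperplanes, algebraic over `L`, with weights `w j i` in `[0, 1]` such that the arrangement is log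
canonical (`LcArr`). The pull back of `K_X + Δ` to `K'` is compared with the pull back of the
canonical divisor of the relative product plus `∑ w j i (A j i = 0)` at the places over the prime
divisors of `X` which are trivial on `L` (`LcHor`) and at the places over the prime divisors of the
product (`Cor`). -/
def Fibres (y : Fin (N + 1) → K) (n : ℕ) (Δ : Place ℂ K → ℚ) (L : IntermediateField ℂ K) {c : ℕ}
    (r s : Fin c → ℕ) (w : ∀ j, Fin (s j) → ℚ) : Prop :=
  (∀ j, 1 ≤ r j ∧ ∀ i, 0 ≤ w j i ∧ w j i ≤ 1) ∧
  ∃ (K' : Type) (_ : Field K') (_ : Algebra ℂ K') (_ : Algebra K K') (_ : IsScalarTower ℂ K K')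
    (_ : FiniteDimensional K K') (A : ∀ j, Fin (s j) → Fin (r j + 1) → K')
    (u : (Σ j, Fin (r j)) → K'),
    LcArr (upF K' L) A w ∧ IsTranscendenceBasis (upF K' L) u ∧
    LcHor L A u w {P | IsPrimeDivisor y P} (fun P => (Δ P : ℝ)) ∧
    Cor y n Δ (upF K' L) A u w

/-- the sum of the dimensions `r j` for which the sum of the weights is greater than `r j + 1` -/
def big {c : ℕ} (r s : Fin c → ℕ) (w : ∀ j, Fin (s j) → ℚ) : ℕ :=
  ∑ j, if (r j + 1 : ℚ) < ∑ i, w j i then r j else 0

/-- If the sums of the weights are at least `r j + 1` then the Kodaira dimension and the numerical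
dimension (with respect to any effective integral divisor `A`) of `K_X + Δ` are `d + big`; otherwise
both are `-∞`. -/
def Abundance (y : Fin (N + 1) → K) (n d : ℕ) (Δ : Place ℂ K → ℚ) {c : ℕ} (r s : Fin c → ℕ)
    (w : ∀ j, Fin (s j) → ℚ) : Prop :=
  ((∀ j, (r j + 1 : ℚ) ≤ ∑ i, w j i) → kodairaDim y n Δ = ((d + big r s w : ℕ) : WithBot ℕ) ∧
    ∀ A, Effective y A → Integral y A → numericalDim y n Δ A = ((d + big r s w : ℕ) : EReal)) ∧
  ((∃ j, ∑ i, w j i < (r j + 1 : ℚ)) → kodairaDim y n Δ = ⊥ ∧
    ∀ A, Effective y A → numericalDim y n Δ A = ⊥)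

end

theorem exists_idx {c : ℕ} (r q : Fin c → ℕ) (w : ∀ j, Fin (q j) → ℚ) :
    ∃ κ : Fin (big r q w) → Σ j, Fin (r j), Function.Injective κ ∧
      ∀ i, (r (κ i).1 + 1 : ℚ) < ∑ i', w (κ i).1 i' := by
  classical
  have h1 : Fintype.card {x : Σ j, Fin (r j) // (r x.1 + 1 : ℚ) < ∑ i, w x.1 i} = big r q w := by
    rw [Fintype.card_subtype, Finset.card_filter, Fintype.sum_sigma]
    refine Finset.sum_congr rfl fun j _ => ?_
    change ∑ _k : Fin (r j), (if (r j + 1 : ℚ) < ∑ i, w j i then 1 else 0) = _
    rw [Finset.sum_const, Finset.card_univ, Fintype.card_fin, smul_eq_mul, mul_ite, mul_one,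
      mul_zero]
  let φ := Fintype.equivFinOfCardEq h1
  exact ⟨fun i => (φ.symm i : Σ j, Fin (r j)), fun a b hab => φ.symm.injective (Subtype.ext hab),
    fun i => (φ.symm i).2⟩

theorem abundance_of {K : Type} [Field K] [Algebra ℂ K] {N d c : ℕ} {y : Fin (N + 1) → K}
    {Δ : Place ℂ K → ℚ} {r s : Fin c → ℕ} {w : ∀ j, Fin (s j) → ℚ} {L : IntermediateField ℂ K}
    (hy : IsPair y (d + ∑ j, r j) Δ) {K' : Type} [Field K'] [Algebra ℂ K']
    [Algebra K K'] [IsScalarTower ℂ K K'] [FiniteDimensional K K']
    {A : ∀ j, Fin (s j) → Fin (r j + 1) → K'}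
    {u : (Σ j, Fin (r j)) → K'} (hw : ∀ j, 1 ≤ r j ∧ ∀ i, 0 ≤ w j i ∧ w j i ≤ 1)
    (hA : LcArr (upF K' L) A w) (hu : IsTranscendenceBasis (upF K' L) u)
    (hC : Cor y (d + ∑ j, r j) Δ (upF K' L) A u w)
    (hK : (∀ j, (r j + 1 : ℚ) ≤ ∑ i, w j i) → KodairaGe (d + ∑ j, r j) {P | IsPrimeDivisor y P}
      (fun P => (Δ P : ℝ)) (d + big r s w)) : Abundance y (d + ∑ j, r j) d Δ r s w := by
  obtain ⟨h1, h2⟩ := lc_ab hy.1 hy.2.1 hy.2.2 hA.1 hu (fun j => (hw j).1)
    (fun j i => ((hw j).2 i).1) (fun j i => ((hw j).2 i).2) hC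
  refine ⟨fun h => h2 (d + big r s w) h ?_ (hK h), h1⟩
  rw [add_assoc, big, ← Finset.sum_add_distrib]
  congr 1
  refine Finset.sum_congr rfl fun j _ => ?_
  rcases lt_or_eq_of_le (h j) with h3 | h3
  · rw [if_pos h3, if_neg h3.ne', add_zero]
  · rw [if_neg (not_lt.2 h3.symm.le), if_pos h3.symm, zero_add]

/-- **Abundance.** Let `(X, Δ)` be a projective pair with generic point `y`, of dimension
`b + (d + ∑ j, r j)`, where `d` is the sum of the `d i`; let the subfield `B` of the function field be
the function field of a variety `Z` of general type of dimension `b`, and `V i` linear systems on `X`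
with `PowerfulSystems` relative to `Z`. Let the fibres of `X` over the image `Y` of `X` under the map
to `Z` and the `V i` be as in `Fibres`. Then the Kodaira dimension and the numerical dimension of
`K_X + Δ` are equal: they are `b + d` plus the sum of the `r j` with `r j + 1 < ∑ i, w j i`, if
`r j + 1 ≤ ∑ i, w j i` for all `j`, and `-∞` otherwise. -/
theorem result (b t N c : ℕ) (d k : Fin t → ℕ) (r s : Fin c → ℕ) (K : Type) [Field K]
    [Algebra ℂ K] (y : Fin (N + 1) → K) (Δ : Place ℂ K → ℚ)
    (hy : IsPair y (b + (∑ i, d i + ∑ j, r j)) Δ) (B : IntermediateField ℂ K)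
    (hB : GeneralType B b) (V : Fin t → Submodule ℂ K)
    (hV : PowerfulSystems y Δ B b d k V) (w : ∀ j, Fin (s j) → ℚ)
    (hF : Fibres y (b + (∑ i, d i + ∑ j, r j)) Δ (ImageField B V t) r s w) :
    Abundance y (b + (∑ i, d i + ∑ j, r j)) (b + ∑ i, d i) Δ r s w := by
  classical
  obtain ⟨hw, K', _, _, _, _, _, A, u, hA, hu, hH, hC⟩ := hF
  have hKe0 : Algebra.EssFiniteType ℂ K := hy.1.ess
  have hBe : Algebra.EssFiniteType ℂ B := Pool.Agent.Q298.EF.ess_sub (K := K)
  obtain ⟨Δ', hΔ', hmem⟩ := hV.members
  have htr : Algebra.trdeg ℂ (ImageField B V t) = (b + ∑ i, d i : ℕ) := by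
    have h1 := hV.dim t le_rfl
    rwa [Pool.Agent.Q298.JS.sum_filter_all] at h1
  obtain ⟨m₀, hm₀, η, hη, hne₀⟩ := hB
  have hlow : (∀ j, (r j + 1 : ℚ) ≤ ∑ i, w j i) →
      KodairaGe (b + (∑ i, d i + ∑ j, r j)) {P | IsPrimeDivisor y P}
        (fun P => (Δ P : ℝ)) (b + (∑ i, d i + big r s w)) := by
    intro hws
    obtain ⟨κ, hκ, hκs⟩ := exists_idx r s w
    have hKe : Algebra.trdeg (ImageField B V t) K = (∑ j, r j : ℕ) :=
      Pool.Agent.Q298.JS.trdeg_over htr (by rw [hy.2.1, add_assoc])
    -- the boundary along the divisors which dominate the base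
    let δ₂ : Place ℂ K → ℝ := fun P =>
      if ∀ f ∈ ImageField B V t, f ≠ 0 → P.ord f = 0 then (Δ P : ℝ) else 0
    let δ₁ : Fin t → Place ℂ K → ℝ := fun i P =>
      if ∀ f ∈ ImageField B V t, f ≠ 0 → P.ord f = 0 then 0 else (Δ' i P : ℝ)
    have hΔ0 : ∀ P, IsPrimeDivisor y P → (0 : ℝ) ≤ Δ P := fun P hP => by
      exact_mod_cast hy.2.2.1 P hP
    have hδ₂ : ∀ P ∈ {P | IsPrimeDivisor y P}, 0 ≤ δ₂ P := by
      intro P hP
      change (0 : ℝ) ≤ if ∀ f ∈ ImageField B V t, f ≠ 0 → P.ord f = 0 then (Δ P : ℝ) else 0
      split_ifs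
      · exact hΔ0 P hP
      · exact le_rfl
    have hH' : LcHor (ImageField B V t) A u w {P | IsPrimeDivisor y P} δ₂ := by
      intro P hP htr Q ε hQ c' e' ho
      have h1 := hH P hP htr Q ε hQ c' e' ho
      have h2 : δ₂ P = Δ P := if_pos htr
      rw [h2]
      exact h1
    have hS : Pool.Agent.Q298.JS.SysB (b + (∑ i, d i + ∑ j, r j)) {P | IsPrimeDivisor y P} B b d k V
        δ₁ := by
      refine ⟨hV.pos, hV.dim, hV.rank, hV.nondegenerate, fun i => ?_⟩
      obtain ⟨q, φ, R, σ, h1, h2, h3, h4, h5, h6⟩ := hmem i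
      refine ⟨q, φ, R, σ, h1, h2, h3, h4, by exact_mod_cast h5, fun P hP _ a ha hb hc => ?_⟩
      have h7 : δ₁ i P = Δ' i P := by
        refine if_neg fun htr => ?_
        obtain ⟨j, hj⟩ := hc
        obtain ⟨f, hf, hf0, hfa⟩ := hb
        have hfi : φ j ∈ V i := h2 ▸ Submodule.subset_span ⟨j, rfl⟩
        have h8 : φ j / f ∈ ImageField B V t := by
          have h8 : IntermediateField.adjoin ℂ
              {y : K | ∃ i : Fin t, (i : ℕ) < t ∧ ∃ f ∈ V i, ∃ g ∈ V i, y = f / g} ≤
              ImageField B V t := le_sup_right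
          exact h8 (IntermediateField.subset_adjoin ℂ _ ⟨i, i.2, φ j, hfi, f, hf, rfl⟩)
        have h9 := htr _ h8 (div_ne_zero (h1 j) hf0)
        rw [P.ord_div (h1 j) hf0] at h9
        exact hj (by omega)
      obtain ⟨j, hj⟩ := h6 P hP a ha hb hc
      refine ⟨j, ?_⟩
      rw [h7]
      exact_mod_cast hj
    obtain ⟨M, hM, θ, hθ, hne⟩ := lc_low (N := b + (∑ i, d i + ∑ j, r j)) hKe hA finSigmaFinEquiv hu
      (fun j i => ((hw j).2 i).1) hws hκ hκs hδ₂ hH'
    refine hS.iitaka hy.2.1 (δ₂ := δ₂) (δ := fun P => (Δ P : ℝ)) ?_ ?_ ⟨M, hM, θ, hθ, hne⟩ hm₀ hη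
      hne₀
    · intro i P hP
      change (0 : ℝ) ≤ if ∀ f ∈ ImageField B V t, f ≠ 0 → P.ord f = 0 then 0 else (Δ' i P : ℝ)
      split_ifs
      · exact le_rfl
      · exact_mod_cast (hΔ' P hP).1 i
    · intro P hP
      change (∑ i, if ∀ f ∈ ImageField B V t, f ≠ 0 → P.ord f = 0 then 0 else (Δ' i P : ℝ)) +
        (if ∀ f ∈ ImageField B V t, f ≠ 0 → P.ord f = 0 then (Δ P : ℝ) else 0) ≤ (Δ P : ℝ)
      split_ifs
      · rw [Finset.sum_const_zero, zero_add]
      · rw [add_zero]
        exact_mod_cast (hΔ' P hP).2
  have hassoc : b + (∑ i, d i + ∑ j, r j) = b + ∑ i, d i + ∑ j, r j := (add_assoc _ _ _).symm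
  have hlow' : (∀ j, (r j + 1 : ℚ) ≤ ∑ i, w j i) →
      KodairaGe (b + (∑ i, d i + ∑ j, r j)) {P | IsPrimeDivisor y P}
        (fun P => (Δ P : ℝ)) (b + ∑ i, d i + big r s w) := by
    intro hws
    rw [add_assoc b (∑ i, d i) (big r s w)]
    exact hlow hws
  rw [hassoc] at hy hC hlow' ⊢
  exact abundance_of hy hw hA hu hC hlow'

end Pool.Agent.Results.MP_c1e25c_ag.RelativeArrangements
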